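import Pool.Agent.N186.ND.KD

/-!
# Project DM: the sets of primes prime to `m`

The logarithmic average of the sign of `kd` over the sets of primes prime to `m`, `56 ∣ m`.
-/

set_option autoImplicit false

open scoped Classical

open Finset Filter Topology

namespace Pool.Agent.N186.DM

open Pool.Agent.N973.ND (Pr m7 ty kd SS SA Cl)
open Pool.Agent.N186.ND (gg PP gg_cases kd_eq ty_mod gg_mod wt NN sgz NN_eq wt_eq wt_nonneg prod_inj
  main_ineq lin_of_tendsto gg_parity parity FV FV_le PP_prime)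

/-- the primes prime to `m` up to `y` -/
noncomputable def PQ (m y : ℕ) : Finset ℕ :=
  (range (y + 1)).filter fun p => p.Prime ∧ Nat.Coprime p m

lemma PQ_prime (m y p : ℕ) (h : p ∈ PQ m y) : p.Prime := (mem_filter.1 h).2.1

lemma PQ_cop (m y p : ℕ) (h : p ∈ PQ m y) : Nat.Coprime p m := (mem_filter.1 h).2.2

lemma Pr_of {m p : ℕ} (hm : 56 ∣ m) (hp : p.Prime) (h : Nat.Coprime p m) : Pr p := by
  refine ⟨hp, ?_, ?_⟩
  · rintro rfl
    have h2 : (2 : ℕ) ∣ m := (by norm_num : (2 : ℕ) ∣ 56).trans hm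
    have := Nat.Coprime.eq_one_of_dvd h h2
    omega
  · rintro rfl
    have h2 : (7 : ℕ) ∣ m := (by norm_num : (7 : ℕ) ∣ 56).trans hm
    have := Nat.Coprime.eq_one_of_dvd h h2
    omega

lemma PQ_sub {m : ℕ} (hm : 56 ∣ m) (y : ℕ) : PQ m y ⊆ PP y := by
  intro p hp
  unfold PQ at hp
  unfold Pool.Agent.N186.ND.PP
  rw [mem_filter] at hp ⊢
  exact ⟨hp.1, Pr_of hm hp.2.1 hp.2.2⟩

/-- passing from `PP` to `PQ` changes the sums by a bounded amount -/
lemma diff_bound {m : ℕ} (hm0 : 0 < m) (hm : 56 ∣ m) (y : ℕ) (f : ℕ → ℝ) (hf : ∀ p, |f p| ≤ 1) :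
    |∑ p ∈ PP y, f p / p - ∑ p ∈ PQ m y, f p / p| ≤ m.primeFactors.card := by
  rw [← sum_sdiff (PQ_sub hm y), add_sub_cancel_right]
  refine (abs_sum_le_sum_abs _ _).trans ?_
  have h1 : PP y \ PQ m y ⊆ m.primeFactors := by
    intro p hp
    rw [Finset.mem_sdiff] at hp
    have hp1 := hp.1
    unfold Pool.Agent.N186.ND.PP at hp1
    rw [mem_filter] at hp1
    have hp2 : ¬ Nat.Coprime p m := fun h => hp.2 (mem_filter.2 ⟨hp1.1, hp1.2.1, h⟩)
    rw [Nat.mem_primeFactors]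
    exact ⟨hp1.2.1, by rwa [Nat.Prime.coprime_iff_not_dvd hp1.2.1, not_not] at hp2, hm0.ne'⟩
  calc ∑ p ∈ PP y \ PQ m y, |f p / p| ≤ ∑ p ∈ PP y \ PQ m y, (1 : ℝ) := by
        refine sum_le_sum fun p hp => ?_
        have hpp := PP_prime y p (Finset.mem_sdiff.1 hp).1
        have : (1 : ℝ) ≤ p := by exact_mod_cast hpp.one_lt.le
        rw [abs_div, abs_of_nonneg (by positivity : (0 : ℝ) ≤ p), div_le_one (by linarith)]
        exact (hf p).trans this
    _ = ((PP y \ PQ m y).card : ℝ) := by simp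
    _ ≤ _ := by exact_mod_cast card_le_card h1

lemma mer_one {m : ℕ} (hm0 : 0 < m) (hm : 56 ∣ m) : ∃ C : ℝ, 0 ≤ C ∧ ∀ y : ℕ, 3 ≤ y →
    |∑ p ∈ PQ m y, 1 / (p : ℝ) - Real.log (Real.log y)| ≤ C := by
  obtain ⟨C, h0, hC⟩ := Pool.Agent.N186.ND.mer_one
  refine ⟨C + m.primeFactors.card, by positivity, fun y hy => ?_⟩
  have h1 := hC y hy
  have h2 := diff_bound hm0 hm y (fun _ => 1) (fun _ => by simp)
  rw [abs_le] at h1 h2 ⊢
  constructor <;> linarith [h1.1, h1.2, h2.1, h2.2]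

lemma mer_gg {m : ℕ} (hm0 : 0 < m) (hm : 56 ∣ m) : ∃ C : ℝ, 0 ≤ C ∧ ∀ y : ℕ, 3 ≤ y →
    |∑ p ∈ PQ m y, (gg p : ℝ) / p| ≤ C := by
  obtain ⟨C, h0, hC⟩ := Pool.Agent.N186.ND.mer_gg
  refine ⟨C + m.primeFactors.card, by positivity, fun y hy => ?_⟩
  have h1 := hC y hy
  have h2 := diff_bound hm0 hm y (fun p => (gg p : ℝ)) (fun p => by
    rcases gg_cases p with h | h | h <;> rw [h] <;> norm_num)
  rw [abs_le] at h1 h2 ⊢
  constructor <;> linarith [h1.1, h1.2, h2.1, h2.2]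

lemma mer_ne {m : ℕ} (hm0 : 0 < m) (hm : 56 ∣ m) : ∃ C : ℝ, 0 ≤ C ∧ ∀ y : ℕ, 3 ≤ y →
    1 / 2 * Real.log (Real.log y) - C ≤ ∑ p ∈ PQ m y with gg p ≠ 0, 1 / (p : ℝ) := by
  obtain ⟨C, h0, hC⟩ := Pool.Agent.N186.ND.mer_ne
  refine ⟨C + m.primeFactors.card, by positivity, fun y hy => ?_⟩
  have h1 := hC y hy
  have h2 := diff_bound hm0 hm y (fun p => if gg p ≠ 0 then 1 else 0) (fun p => by
    split_ifs <;> norm_num)
  have e : ∀ P : Finset ℕ, ∑ p ∈ P with gg p ≠ 0, 1 / (p : ℝ) =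
      ∑ p ∈ P, (if gg p ≠ 0 then (1 : ℝ) else 0) / p := by
    intro P
    rw [sum_filter]
    refine sum_congr rfl fun p _ => ?_
    split_ifs <;> simp
  rw [e] at h1 ⊢
  rw [abs_le] at h2
  linarith [h2.1, h2.2]

lemma sum_sq_le (m y : ℕ) : ∑ p ∈ PQ m y, (1 / (p : ℝ)) ^ 2 ≤ 2 := by
  have h1 : ∑ p ∈ PQ m y, (1 / (p : ℝ)) ^ 2 ≤ ∑ p ∈ Ioc 1 (y + 1), ((p : ℝ) ^ 2)⁻¹ := by
    calc ∑ p ∈ PQ m y, (1 / (p : ℝ)) ^ 2 = ∑ p ∈ PQ m y, ((p : ℝ) ^ 2)⁻¹ :=
          sum_congr rfl fun p _ => by rw [div_pow, one_pow, one_div]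
      _ ≤ _ := by
          refine sum_le_sum_of_subset_of_nonneg ?_ fun _ _ _ => by positivity
          intro p hp
          have h2 := (PQ_prime m y p hp).two_le
          have h3 := mem_range.1 (mem_filter.1 hp).1
          rw [mem_Ioc]
          omega
  have h2 := sum_Ioc_inv_sq_le_sub (α := ℝ) (k := 1) (n := y + 1) one_ne_zero (by omega)
  have h3 : (0 : ℝ) ≤ ((y + 1 : ℕ) : ℝ)⁻¹ := by positivity
  push_cast at h2 h3
  norm_num at h2
  linarith

lemma NN_le (m y : ℕ) : NN (PQ m y) ≤ Real.exp (∑ p ∈ PQ m y, 1 / (p : ℝ)) := by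
  rw [NN_eq]
  exact Real.prod_one_add_le_exp_sum _ fun p => by positivity

/-- the logarithmic average of the sign -/
noncomputable def LL (m : ℕ) (c : ℤ) (X : ℕ) : ℝ :=
  ∑ S ∈ (PQ m X).powerset.filter (fun S => ∏ p ∈ S, p ≤ X), wt S * sgz c (∑ p ∈ S, gg p)

theorem LL_small {m : ℕ} (hm0 : 0 < m) (hm : 56 ∣ m) (c : ℤ) (ε : ℝ) (hε : 0 < ε) :
    ∃ X₀ : ℕ, ∀ X : ℕ, X₀ ≤ X → |LL m c X| ≤ ε * Real.log X := by
  obtain ⟨C1, hC10, hC1⟩ := mer_one hm0 hm
  obtain ⟨C2, hC20, hC2⟩ := mer_gg hm0 hm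
  obtain ⟨C3, hC30, hC3⟩ := mer_ne hm0 hm
  obtain ⟨C4, hC4⟩ := Pool.Agent.Helper601.Mertens.mertens_log
  set e1 : ℝ := Real.exp C1 with he1
  have he10 : 0 < e1 := Real.exp_pos _
  set δ : ℝ := min (1 / 2) (ε / (2 * (1 + e1))) with hδ
  have hδ0 : 0 < δ := lt_min (by norm_num) (by positivity)
  have hδ1 : δ ≤ 1 / 2 := min_le_left _ _
  have hδ2 : δ * (1 + e1) ≤ ε / 2 := by
    have h1 : δ ≤ ε / (2 * (1 + e1)) := min_le_right _ _
    rw [le_div_iff₀ (by positivity)] at h1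
    linarith
  set K : ℝ := |(c : ℝ)| + 1 + C2 + 4 * 2 with hK
  set D : ℝ := Real.log (2 / δ ^ 2) + 2 * C1 with hD
  have hlog : Tendsto (fun X : ℕ => Real.log (X : ℝ)) atTop atTop :=
    Real.tendsto_log_atTop.comp tendsto_natCast_atTop_atTop
  have hLt : Tendsto (fun X : ℕ => 1 / 2 * Real.log (δ ^ 2 / 2 * Real.log (X : ℝ)) - C3) atTop atTop := by
    refine tendsto_atTop_add_const_right _ _ ?_
    refine Tendsto.const_mul_atTop (by norm_num) ?_
    exact Real.tendsto_log_atTop.comp (hlog.const_mul_atTop (by positivity))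
  have hsm : Tendsto (fun X : ℕ => 1 / Real.log (X : ℝ) + e1 * (4 * (K + D) /
      √(1 / 2 * Real.log (δ ^ 2 / 2 * Real.log (X : ℝ)) - C3) + (|C4| / δ) / Real.log (X : ℝ)))
      atTop (𝓝 (0 + e1 * (0 + 0))) := by
    refine Tendsto.add (tendsto_const_nhds.div_atTop hlog) (Tendsto.const_mul _ (Tendsto.add ?_ ?_))
    · exact tendsto_const_nhds.div_atTop (Real.tendsto_sqrt_atTop.comp hLt)
    · exact tendsto_const_nhds.div_atTop hlog
  rw [add_zero, mul_zero, add_zero] at hsm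
  have hpow : Tendsto (fun X : ℕ => ((X : ℝ) ^ (δ ^ 2))) atTop atTop :=
    (tendsto_rpow_atTop (by positivity)).comp tendsto_natCast_atTop_atTop
  have hev := (hsm.eventually_le_const (half_pos hε)).and ((hLt.eventually_gt_atTop 0).and
    ((hpow.eventually_ge_atTop 3).and ((hlog.eventually_ge_atTop (2 * Real.log 2 / δ ^ 2)).and
      (eventually_ge_atTop 3))))
  obtain ⟨X₀, hX₀⟩ := eventually_atTop.1 hev
  refine ⟨X₀, fun X hX => ?_⟩
  obtain ⟨h1, h2, h3, h4, h5⟩ := hX₀ X hX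
  have hX1 : (1 : ℝ) < X := by
    have : (3 : ℝ) ≤ X := by exact_mod_cast h5
    linarith
  have hX0 : (0 : ℝ) < X := by linarith
  have hlX : 0 < Real.log X := Real.log_pos hX1
  set y : ℕ := ⌊(X : ℝ) ^ (δ ^ 2)⌋₊ with hy
  have hy3 : 3 ≤ y := Nat.le_floor (by exact_mod_cast h3)
  have hyle : (y : ℝ) ≤ (X : ℝ) ^ (δ ^ 2) := Nat.floor_le (by positivity)
  have hylt : (X : ℝ) ^ (δ ^ 2) < y + 1 := Nat.lt_floor_add_one _
  have hy0 : (0 : ℝ) < y := by
    have : (3 : ℝ) ≤ y := by exact_mod_cast hy3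
    linarith
  have hyX : y ≤ X := by
    have hδs : δ ^ 2 ≤ 1 := by nlinarith
    have : (y : ℝ) ≤ X := hyle.trans (by
      calc (X : ℝ) ^ (δ ^ 2) ≤ (X : ℝ) ^ (1 : ℝ) := Real.rpow_le_rpow_of_exponent_le hX1.le hδs
        _ = X := Real.rpow_one _)
    exact_mod_cast this
  have hly1 : Real.log y ≤ δ ^ 2 * Real.log X := by
    rw [← Real.log_rpow hX0]
    exact Real.log_le_log hy0 hyle
  have hly2 : δ ^ 2 / 2 * Real.log X ≤ Real.log y := by
    have g1 : (X : ℝ) ^ (δ ^ 2) / 2 ≤ y := by linarith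
    have g2 : Real.log ((X : ℝ) ^ (δ ^ 2) / 2) ≤ Real.log y := Real.log_le_log (by positivity) g1
    rw [Real.log_div (by positivity) (by norm_num), Real.log_rpow hX0] at g2
    rw [div_le_iff₀ (by positivity)] at h4
    nlinarith
  have hly0 : 0 < Real.log y := lt_of_lt_of_le (by positivity) hly2
  set Z : ℝ := (X : ℝ) ^ δ with hZ
  have hZ1 : 1 < Z := Real.one_lt_rpow hX1 hδ0
  have hlZ : Real.log Z = δ * Real.log X := Real.log_rpow hX0 _
  have hsub : PQ m y ⊆ PQ m X := by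
    unfold PQ
    intro p hp
    rw [mem_filter, mem_range] at hp ⊢
    exact ⟨by omega, hp.2⟩
  have hun : PQ m y ∪ (PQ m X \ PQ m y) = PQ m X := union_sdiff_of_subset hsub
  set L : ℝ := 1 / 2 * Real.log (δ ^ 2 / 2 * Real.log (X : ℝ)) - C3 with hL
  have hLle : L ≤ ∑ p ∈ PQ m y with gg p ≠ 0, 1 / (p : ℝ) := by
    refine le_trans ?_ (hC3 y hy3)
    have : Real.log (δ ^ 2 / 2 * Real.log (X : ℝ)) ≤ Real.log (Real.log y) :=
      Real.log_le_log (by positivity) hly2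
    rw [hL]
    linarith
  have hE : ∑ p ∈ PQ m y, Real.log p / p ≤ Real.log y + |C4| := by
    have g1 := (abs_le.1 (hC4 y (by omega))).2
    have g2 : ∑ p ∈ PQ m y, Real.log p / p ≤ ∑ p ∈ (Finset.Icc 1 y).filter Nat.Prime, Real.log p / p := by
      refine sum_le_sum_of_subset_of_nonneg ?_ fun p _ _ =>
        div_nonneg (Real.log_natCast_nonneg p) (Nat.cast_nonneg p)
      intro p hp
      have g3 := (PQ_prime m y p hp)
      have g4 := mem_range.1 (mem_filter.1 hp).1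
      rw [mem_filter, mem_Icc]
      exact ⟨⟨g3.one_lt.le, by omega⟩, g3⟩
    have := le_abs_self C4
    linarith
  have hDle : ∑ q ∈ PQ m X \ PQ m y, 1 / (q : ℝ) ≤ D := by
    have g1 := (abs_le.1 (hC1 X h5)).2
    have g2 := (abs_le.1 (hC1 y hy3)).1
    have g3 : ∑ q ∈ PQ m X \ PQ m y, 1 / (q : ℝ) = ∑ q ∈ PQ m X, 1 / (q : ℝ) - ∑ q ∈ PQ m y, 1 / (q : ℝ) := by
      rw [eq_sub_iff_add_eq, sum_sdiff hsub]
    have g4 : Real.log (δ ^ 2 / 2 * Real.log X) ≤ Real.log (Real.log y) :=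
      Real.log_le_log (by positivity) hly2
    rw [Real.log_mul (by positivity) (by positivity)] at g4
    have g5 : Real.log (2 / δ ^ 2) = - Real.log (δ ^ 2 / 2) := by
      rw [← Real.log_inv]
      congr 1
      field_simp
    rw [g3, hD, g5]
    linarith
  have hmain := main_ineq (PQ m y) (PQ m X \ PQ m y) disjoint_sdiff
    (fun p hp => PQ_prime m X p (by rw [hun] at hp; exact hp)) gg gg_cases c X (by omega) Z hZ1 L C2 2
    (Real.log y + |C4|) D h2 hLle (hC2 y hy3) (sum_sq_le m y) hE hDle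
  rw [hun] at hmain
  have hNN : NN (PQ m X) ≤ e1 * Real.log X := by
    refine (NN_le m X).trans ?_
    have g1 := (abs_le.1 (hC1 X h5)).2
    have g2 : Real.log (Real.log X) + C1 = C1 + Real.log (Real.log X) := add_comm _ _
    calc Real.exp (∑ p ∈ PQ m X, 1 / (p : ℝ)) ≤ Real.exp (C1 + Real.log (Real.log X)) :=
          Real.exp_le_exp.2 (by linarith)
      _ = e1 * Real.log X := by rw [Real.exp_add, Real.exp_log hlX]
  have hD0 : 0 ≤ D := by
    have : 0 ≤ Real.log (2 / δ ^ 2) := Real.log_nonneg (by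
      rw [le_div_iff₀ (by positivity)]
      nlinarith)
    rw [hD]
    linarith
  have hK0 : 0 ≤ K := by
    have := abs_nonneg (c : ℝ)
    rw [hK]
    linarith
  have hbr0 : 0 ≤ 4 * (|(c : ℝ)| + 1 + C2 + 4 * 2 + D) / √L + (Real.log y + |C4|) / Real.log Z := by
    have : 0 < Real.log Z := Real.log_pos hZ1
    have := abs_nonneg (c : ℝ)
    have := abs_nonneg C4
    positivity
  have hfrac : (Real.log y + |C4|) / Real.log Z ≤ δ + (|C4| / δ) / Real.log X := by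
    rw [hlZ, div_le_iff₀ (by positivity)]
    have : (δ + (|C4| / δ) / Real.log X) * (δ * Real.log X) = δ ^ 2 * Real.log X + |C4| := by
      field_simp
    rw [this]
    linarith
  unfold LL
  calc _ ≤ 1 + Real.log Z + NN (PQ m X) * (4 * (|(c : ℝ)| + 1 + C2 + 4 * 2 + D) / √L +
        (Real.log y + |C4|) / Real.log Z) := hmain
    _ ≤ 1 + δ * Real.log X + (e1 * Real.log X) * (4 * (K + D) / √L +
        (δ + (|C4| / δ) / Real.log X)) := by
        rw [hlZ] at hfrac hbr0 ⊢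
        have g1 := mul_le_mul hNN (le_refl (4 * (|(c : ℝ)| + 1 + C2 + 4 * 2 + D) / √L +
          (Real.log y + |C4|) / (δ * Real.log X))) hbr0 (by positivity)
        have g2 : e1 * Real.log X * (4 * (|(c : ℝ)| + 1 + C2 + 4 * 2 + D) / √L +
          (Real.log y + |C4|) / (δ * Real.log X)) ≤ (e1 * Real.log X) * (4 * (K + D) / √L +
          (δ + (|C4| / δ) / Real.log X)) := by
          refine mul_le_mul_of_nonneg_left ?_ (by positivity)
          rw [hK]
          linarith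
        linarith
    _ = (δ * (1 + e1)) * Real.log X + (1 / Real.log X + e1 * (4 * (K + D) / √L +
        (|C4| / δ) / Real.log X)) * Real.log X := by
        field_simp
        ring
    _ ≤ ε / 2 * Real.log X + ε / 2 * Real.log X :=
        add_le_add (mul_le_mul_of_nonneg_right hδ2 hlX.le) (mul_le_mul_of_nonneg_right h1 hlX.le)
    _ = ε * Real.log X := by ring

end Pool.Agent.N186.DM
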