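import Pool.Agent.N186.DM.Base
import Pool.Agent.N843.DM.Stm

/-!
# Project DM: the distribution of `kd` in the residue classes

From the prime number theorem in the progressions modulo `m` the sum over the sets with product at
most `X` in a fixed class is reduced to the logarithmic sum over the sets of primes prime to `m`.
-/

set_option autoImplicit false

open scoped Classical

open Finset Filter Topology

namespace Pool.Agent.N186.DM

open Pool.Agent.N973.ND (Pr m7 ty kd SS SA Cl)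
open Pool.Agent.N186.ND (gg PP gg_cases kd_eq ty_mod gg_mod wt NN sgz NN_eq wt_eq wt_nonneg prod_inj
  main_ineq lin_of_tendsto gg_parity parity FV FV_le PP_prime SX)
open Pool.Agent.H970R2.X (xapl_th xapl_th_tendsto)

/-- the sets of primes prime to `m` with product at most `X` -/
noncomputable def SC (m X : ℕ) : Finset (Finset ℕ) :=
  (PQ m X).powerset.filter fun S => ∏ p ∈ S, p ≤ X

lemma mem_SC {m X : ℕ} {S : Finset ℕ} :
    S ∈ SC m X ↔ (∀ p ∈ S, p.Prime ∧ Nat.Coprime p m) ∧ ∏ p ∈ S, p ≤ X := by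
  unfold SC PQ
  rw [mem_filter, mem_powerset]
  constructor
  · rintro ⟨h1, h2⟩
    exact ⟨fun p hp => (mem_filter.1 (h1 hp)).2, h2⟩
  · rintro ⟨h1, h2⟩
    refine ⟨fun p hp => ?_, h2⟩
    rw [mem_filter, mem_range]
    refine ⟨?_, h1 p hp⟩
    have : p ≤ ∏ p ∈ S, p := Nat.le_of_dvd (prod_pos fun q hq => (h1 q hq).1.pos)
      (dvd_prod_of_mem _ hp)
    omega

lemma LL_eq (m : ℕ) (c : ℤ) (X : ℕ) :
    LL m c X = ∑ S ∈ SC m X, wt S * sgz c (∑ p ∈ S, gg p) := rfl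

lemma SC_prime {m X : ℕ} {S : Finset ℕ} (h : S ∈ SC m X) : ∀ p ∈ S, p.Prime := fun p hp =>
  ((mem_SC.1 h).1 p hp).1

lemma SC_pos {m X : ℕ} {S : Finset ℕ} (h : S ∈ SC m X) : 0 < ∏ p ∈ S, p :=
  prod_pos fun p hp => (SC_prime h p hp).pos

lemma SC_cop {m X : ℕ} {S : Finset ℕ} (h : S ∈ SC m X) : Nat.Coprime (∏ p ∈ S, p) m :=
  Nat.Coprime.prod_left fun p hp => ((mem_SC.1 h).1 p hp).2

lemma SC_sub {m : ℕ} (hm : 56 ∣ m) (X : ℕ) : SC m X ⊆ SX X := by
  intro S hS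
  rw [mem_SC] at hS
  rw [Pool.Agent.N186.ND.mem_SX]
  exact ⟨fun p hp => Pr_of hm (hS.1 p hp).1 (hS.1 p hp).2, hS.2⟩

lemma card_SC {m : ℕ} (hm : 56 ∣ m) (X : ℕ) : ((SC m X).card : ℝ) ≤ X := by
  have h1 := Pool.Agent.N186.ND.card_SX X
  have h2 : ((SC m X).card : ℝ) ≤ (SX X).card := by exact_mod_cast card_le_card (SC_sub hm X)
  linarith

lemma sum_wt_SC {m : ℕ} (hm : 56 ∣ m) (X : ℕ) : ∑ S ∈ SC m X, wt S ≤ 1 + Real.log X :=
  (sum_le_sum_of_subset_of_nonneg (SC_sub hm X) fun S _ _ => wt_nonneg S).trans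
    (Pool.Agent.N186.ND.sum_wt_SX X)

/-- removing a prime -/
lemma swap (m X : ℕ) (f : Finset ℕ → ℕ → ℝ) : ∑ S ∈ SC m X, ∑ p ∈ S, f (S.erase p) p =
    ∑ T ∈ SC m X, ∑ p ∈ PQ m (X / ∏ q ∈ T, q) \ T, f T p := by
  rw [sum_sigma', sum_sigma']
  refine sum_bij' (fun x _ => ⟨x.1.erase x.2, x.2⟩) (fun x _ => ⟨insert x.2 x.1, x.2⟩) ?_ ?_ ?_ ?_ ?_
  · rintro ⟨S, p⟩ h
    rw [mem_sigma] at h
    obtain ⟨h1, h2⟩ := h
    simp only at h1 h2
    rw [mem_SC] at h1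
    have hpos : 0 < ∏ q ∈ S.erase p, q := prod_pos fun q hq => (h1.1 q (mem_of_mem_erase hq)).1.pos
    have he : p * ∏ q ∈ S.erase p, q = ∏ q ∈ S, q := mul_prod_erase S (fun q => q) h2
    have hp := h1.1 p h2
    rw [mem_sigma]
    refine ⟨?_, ?_⟩
    · show S.erase p ∈ SC m X
      rw [mem_SC]
      refine ⟨fun q hq => h1.1 q (mem_of_mem_erase hq), ?_⟩
      have := hp.1.one_lt
      nlinarith [h1.2]
    · show p ∈ PQ m (X / ∏ q ∈ S.erase p, q) \ S.erase p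
      rw [Finset.mem_sdiff]
      refine ⟨?_, notMem_erase p S⟩
      unfold PQ
      rw [mem_filter, mem_range, Nat.lt_succ_iff, Nat.le_div_iff_mul_le hpos, he]
      exact ⟨h1.2, hp⟩
  · rintro ⟨T, p⟩ h
    rw [mem_sigma] at h
    obtain ⟨h1, h2⟩ := h
    simp only at h1 h2
    rw [Finset.mem_sdiff] at h2
    have hpos := SC_pos h1
    rw [mem_SC] at h1
    unfold PQ at h2
    rw [mem_filter, mem_range, Nat.lt_succ_iff, Nat.le_div_iff_mul_le hpos] at h2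
    rw [mem_sigma]
    refine ⟨?_, mem_insert_self p T⟩
    show insert p T ∈ SC m X
    rw [mem_SC, prod_insert h2.2]
    refine ⟨fun q hq => ?_, h2.1.1⟩
    rw [mem_insert] at hq
    rcases hq with rfl | hq
    · exact h2.1.2
    · exact h1.1 q hq
  · rintro ⟨S, p⟩ h
    rw [mem_sigma] at h
    show (⟨insert p (S.erase p), p⟩ : Sigma fun _ : Finset ℕ => ℕ) = ⟨S, p⟩
    rw [insert_erase h.2]
  · rintro ⟨T, p⟩ h
    rw [mem_sigma] at h
    have := (Finset.mem_sdiff.1 h.2).2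
    show (⟨(insert p T).erase p, p⟩ : Sigma fun _ : Finset ℕ => ℕ) = ⟨T, p⟩
    rw [erase_insert this]
  · rintro ⟨S, p⟩ _
    rfl

/-- the primes already in the set -/
lemma rep {m : ℕ} (hm : 56 ∣ m) : ∃ C : ℝ, 0 ≤ C ∧ ∀ X : ℕ,
    ∑ T ∈ SC m X, ∑ p ∈ PQ m (X / ∏ q ∈ T, q) ∩ T, Real.log p ≤ C * X := by
  obtain ⟨C, h0, hC⟩ := Pool.Agent.N186.ND.rep
  refine ⟨C, h0, fun X => le_trans ?_ (hC X)⟩
  calc _ ≤ ∑ T ∈ SC m X, ∑ p ∈ PP (X / ∏ q ∈ T, q) ∩ T, Real.log p := by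
        refine sum_le_sum fun T _ => ?_
        exact sum_le_sum_of_subset_of_nonneg (inter_subset_inter_right (PQ_sub hm _))
          fun p _ _ => Real.log_natCast_nonneg p
    _ ≤ _ := sum_le_sum_of_subset_of_nonneg (SC_sub hm X) fun T _ _ =>
        sum_nonneg fun p _ => Real.log_natCast_nonneg p

/-! ### The class of the last prime -/

/-- the class of the primes `p` with `p * ∏ T ≡ a` -/
noncomputable def cl (m a : ℕ) (T : Finset ℕ) : ℕ :=
  ((a : ZMod m) * (((∏ p ∈ T, p : ℕ) : ZMod m))⁻¹).val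

lemma cl_cast {m : ℕ} (hm0 : 0 < m) (a : ℕ) (T : Finset ℕ) :
    ((cl m a T : ℕ) : ZMod m) = (a : ZMod m) * (((∏ p ∈ T, p : ℕ) : ZMod m))⁻¹ := by
  have : NeZero m := ⟨hm0.ne'⟩
  unfold cl
  exact ZMod.natCast_zmod_val _

lemma cl_mul {m : ℕ} (hm0 : 0 < m) (a : ℕ) {T : Finset ℕ} (hT : Nat.Coprime (∏ p ∈ T, p) m) :
    ((cl m a T : ℕ) : ZMod m) * ((∏ p ∈ T, p : ℕ) : ZMod m) = (a : ZMod m) := by
  have h := ZMod.coe_mul_inv_eq_one (∏ p ∈ T, p) hT
  rw [cl_cast hm0, mul_assoc, mul_comm (_)⁻¹, h, mul_one]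

lemma cl_lt {m : ℕ} (hm0 : 0 < m) (a : ℕ) (T : Finset ℕ) : cl m a T < m := by
  have : NeZero m := ⟨hm0.ne'⟩
  unfold cl
  exact ZMod.val_lt _

lemma cl_iff {m : ℕ} (hm0 : 0 < m) (a : ℕ) {T : Finset ℕ} (hT : Nat.Coprime (∏ p ∈ T, p) m)
    (p : ℕ) : (p * ∏ q ∈ T, q) % m = a % m ↔ p % m = cl m a T % m := by
  have h := ZMod.coe_mul_inv_eq_one (∏ p ∈ T, p) hT
  have e1 : (p * ∏ q ∈ T, q) % m = a % m ↔
      ((p * ∏ q ∈ T, q : ℕ) : ZMod m) = ((a : ℕ) : ZMod m) :=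
    (ZMod.natCast_eq_natCast_iff' _ _ _).symm
  have e2 : p % m = cl m a T % m ↔ ((p : ℕ) : ZMod m) = ((cl m a T : ℕ) : ZMod m) :=
    (ZMod.natCast_eq_natCast_iff' _ _ _).symm
  rw [e1, e2, ← cl_mul hm0 a hT, Nat.cast_mul]
  constructor
  · intro h2
    have h3 := congrArg (fun x => x * (((∏ p ∈ T, p : ℕ) : ZMod m))⁻¹) h2
    simp only [mul_assoc, h, mul_one] at h3
    exact h3
  · intro h2
    rw [h2]

lemma cl_cop {m : ℕ} (hm0 : 0 < m) {a : ℕ} (ha : Nat.Coprime a m) {T : Finset ℕ}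
    (hT : Nat.Coprime (∏ p ∈ T, p) m) : Nat.Coprime (cl m a T) m := by
  rw [← ZMod.isUnit_iff_coprime]
  have h := cl_mul hm0 a hT
  have h2 : IsUnit ((a : ℕ) : ZMod m) := (ZMod.isUnit_iff_coprime a m).2 ha
  rw [← h] at h2
  exact isUnit_of_mul_isUnit_left h2

lemma gg_modm {m : ℕ} (hm : 56 ∣ m) (p : ℕ) : gg (p % m) = gg p := by
  rw [← gg_mod, Nat.mod_mod_of_dvd p hm, gg_mod]

lemma gg_congr {m : ℕ} (hm : 56 ∣ m) {p q : ℕ} (h : p % m = q % m) : gg p = gg q := by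
  rw [← gg_modm hm p, h, gg_modm hm q]

lemma cop_congr {m p q : ℕ} (h : p % m = q % m) (hq : Nat.Coprime q m) : Nat.Coprime p m := by
  have h1 : Nat.gcd p m = Nat.gcd q m := Nat.ModEq.gcd_eq h
  rw [Nat.coprime_iff_gcd_eq_one] at hq ⊢
  rw [h1, hq]

/-- the prime number theorem, uniformly in the class -/
lemma th_unif {m : ℕ} (hm0 : 0 < m) (ε : ℝ) (hε : 0 < ε) : ∃ C : ℝ, 0 ≤ C ∧ ∀ c : ℕ, c < m →
    Nat.Coprime c m → ∀ n : ℕ, |xapl_th m c (n : ℝ) - (m.totient : ℝ)⁻¹ * n| ≤ ε * n + C := by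
  have h1 : ∀ c : ℕ, ∃ C : ℝ, 0 ≤ C ∧ (Nat.Coprime c m → ∀ n : ℕ,
      |xapl_th m c (n : ℝ) - (m.totient : ℝ)⁻¹ * n| ≤ ε * n + C) := by
    intro c
    by_cases hc : Nat.Coprime c m
    · obtain ⟨C, h0, hC⟩ := lin_of_tendsto (fun n : ℕ => xapl_th m c (n : ℝ)) (m.totient : ℝ)⁻¹
        ((xapl_th_tendsto m c hm0 hc).comp tendsto_natCast_atTop_atTop) ε hε
      exact ⟨C, h0, fun _ => hC⟩
    · exact ⟨0, le_rfl, fun h => absurd h hc⟩
  choose C h0 hC using h1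
  refine ⟨∑ c ∈ range m, C c, sum_nonneg fun c _ => h0 c, fun c hc hcm n => ?_⟩
  have h2 := hC c hcm n
  have h3 := single_le_sum (f := C) (fun i _ => h0 i) (mem_range.2 hc)
  linarith

/-- the inner sum -/
lemma inner_eq {m : ℕ} (hm0 : 0 < m) (hm : 56 ∣ m) {a : ℕ} (ha : Nat.Coprime a m) {T : Finset ℕ}
    (hT : Nat.Coprime (∏ p ∈ T, p) m) (F : ℤ → ℝ) (k : ℤ) (n : ℕ) :
    ∑ p ∈ PQ m n, (if (p * ∏ q ∈ T, q) % m = a % m then Real.log p * F (k + gg p) else 0) =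
      F (k + gg (cl m a T)) * xapl_th m (cl m a T) (n : ℝ) := by
  unfold Pool.Agent.H970R2.X.xapl_th
  rw [Nat.floor_natCast, mul_sum, ← sum_filter]
  refine sum_congr ?_ ?_
  · ext p
    unfold PQ
    simp only [mem_filter, mem_range, mem_Ioc]
    rw [cl_iff hm0 a hT]
    constructor
    · rintro ⟨⟨h1, h2⟩, h3⟩
      exact ⟨⟨h2.1.pos, by omega⟩, h2.1, h3⟩
    · rintro ⟨h1, h2, h3⟩
      exact ⟨⟨by omega, h2, cop_congr h3 (cl_cop hm0 ha hT)⟩, h3⟩
  · intro p hp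
    rw [mem_filter] at hp
    rw [gg_congr hm hp.2.2, mul_comm]

/-- from the sum over the sets in the class to the logarithmic sum -/
theorem to_log {m : ℕ} (hm0 : 0 < m) (hm : 56 ∣ m) {a : ℕ} (ha : Nat.Coprime a m) (ε : ℝ)
    (hε : 0 < ε) : ∃ C : ℝ, 0 ≤ C ∧ ∀ (F : ℤ → ℝ), (∀ k, |F k| ≤ 1) → ∀ X : ℕ, 1 ≤ X →
    |(∑ S ∈ SC m X, if (∏ p ∈ S, p) % m = a % m then F (∑ p ∈ S, gg p) else 0) * Real.log X -
      X * ∑ T ∈ SC m X, wt T * ((m.totient : ℝ)⁻¹ * F (∑ p ∈ T, gg p + gg (cl m a T)))| ≤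
      ε * (X * Real.log X) + C * X := by
  obtain ⟨C1, hC10, hC1⟩ := th_unif hm0 ε hε
  obtain ⟨C2, hC20, hC2⟩ := rep hm
  refine ⟨C1 + C2 + 2 + ε, by positivity, fun F hF X hX => ?_⟩
  have hX0 : (0 : ℝ) < X := by exact_mod_cast hX
  have hphi : (0 : ℝ) < (m.totient : ℝ)⁻¹ := by
    have : 0 < m.totient := Nat.totient_pos.2 hm0
    positivity
  have hphi1 : (m.totient : ℝ)⁻¹ ≤ 1 := by
    have : 1 ≤ m.totient := Nat.totient_pos.2 hm0
    apply inv_le_one_of_one_le₀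
    exact_mod_cast this
  set G : Finset ℕ → ℕ → ℝ := fun T p =>
    if (p * ∏ q ∈ T, q) % m = a % m then Real.log p * F (∑ q ∈ T, gg q + gg p) else 0 with hG
  set R : Finset ℕ → ℝ := fun S =>
    if (∏ p ∈ S, p) % m = a % m then F (∑ p ∈ S, gg p) else 0 with hR
  have hRle : ∀ S, |R S| ≤ 1 := by
    intro S
    rw [hR]
    simp only
    split_ifs
    · exact hF _
    · simp
  -- the logarithm of the product
  have e1 : ∑ S ∈ SC m X, R S * Real.log ((∏ p ∈ S, p : ℕ) : ℝ) =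
      ∑ T ∈ SC m X, ∑ p ∈ PQ m (X / ∏ q ∈ T, q) \ T, G T p := by
    rw [← swap]
    refine sum_congr rfl fun S hS => ?_
    have : Real.log ((∏ p ∈ S, p : ℕ) : ℝ) = ∑ p ∈ S, Real.log p := by
      push_cast
      rw [Real.log_prod]
      intro p hp
      exact_mod_cast (SC_prime hS p hp).ne_zero
    rw [this, mul_sum]
    refine sum_congr rfl fun p hp => ?_
    rw [hG, hR]
    simp only
    rw [sum_erase_add S _ hp, mul_prod_erase S (fun q => q) hp]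
    split_ifs
    · rw [mul_comm]
    · rw [zero_mul]
  have e2 : ∑ T ∈ SC m X, ∑ p ∈ PQ m (X / ∏ q ∈ T, q) \ T, G T p =
      (∑ T ∈ SC m X, ∑ p ∈ PQ m (X / ∏ q ∈ T, q), G T p) -
      ∑ T ∈ SC m X, ∑ p ∈ PQ m (X / ∏ q ∈ T, q) ∩ T, G T p := by
    rw [← sum_sub_distrib]
    refine sum_congr rfl fun T _ => ?_
    rw [eq_sub_iff_add_eq, add_comm]
    exact sum_inter_add_sum_sdiff _ _ _
  -- the errors
  have b1 : |(∑ S ∈ SC m X, R S) * Real.log X -
      ∑ S ∈ SC m X, R S * Real.log ((∏ p ∈ S, p : ℕ) : ℝ)| ≤ X := by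
    rw [sum_mul, ← sum_sub_distrib]
    refine (abs_sum_le_sum_abs _ _).trans ?_
    have h1 : ∑ S ∈ SC m X, |R S * Real.log X - R S * Real.log ((∏ p ∈ S, p : ℕ) : ℝ)| ≤
        ∑ S ∈ SC m X, |Real.log X - Real.log ((∏ p ∈ S, p : ℕ) : ℝ)| := by
      refine sum_le_sum fun S _ => ?_
      rw [← mul_sub, abs_mul]
      have := hRle S
      have := abs_nonneg (Real.log X - Real.log ((∏ p ∈ S, p : ℕ) : ℝ))
      nlinarith
    have h1' : ∑ S ∈ SC m X, |Real.log X - Real.log ((∏ p ∈ S, p : ℕ) : ℝ)| ≤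
        ∑ S ∈ SX X, |Real.log X - Real.log ((∏ p ∈ S, p : ℕ) : ℝ)| :=
      sum_le_sum_of_subset_of_nonneg (SC_sub hm X) fun S _ _ => abs_nonneg _
    refine (h1.trans h1').trans
      ((Pool.Agent.N186.ND.sum_SX_le X (fun m => |Real.log X - Real.log (m : ℝ)|)
      fun m => abs_nonneg _).trans ?_)
    refine le_trans (le_of_eq ?_) (Pool.Agent.N186.ND.sum_log_ratio X hX)
    refine sum_congr rfl fun m hm => ?_
    rw [mem_Icc] at hm
    have h3 : (0 : ℝ) < m := by exact_mod_cast hm.1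
    have h4 : Real.log m ≤ Real.log X := Real.log_le_log h3 (by exact_mod_cast hm.2)
    rw [abs_of_nonneg]
    linarith
  have b2 : |∑ T ∈ SC m X, ∑ p ∈ PQ m (X / ∏ q ∈ T, q) ∩ T, G T p| ≤ C2 * X := by
    refine ((abs_sum_le_sum_abs _ _).trans (sum_le_sum fun T _ => ?_)).trans (hC2 X)
    refine (abs_sum_le_sum_abs _ _).trans (sum_le_sum fun p _ => ?_)
    rw [hG]
    simp only
    have hl := Real.log_natCast_nonneg p
    split_ifs
    · rw [abs_mul, abs_of_nonneg hl]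
      have := hF (∑ q ∈ T, gg q + gg p)
      nlinarith
    · rw [abs_zero]; exact hl
  have b3 : |(∑ T ∈ SC m X, ∑ p ∈ PQ m (X / ∏ q ∈ T, q), G T p) -
      X * ∑ T ∈ SC m X, wt T * ((m.totient : ℝ)⁻¹ * F (∑ p ∈ T, gg p + gg (cl m a T)))| ≤
      ε * (X * (1 + Real.log X)) + (C1 + 1) * X := by
    rw [mul_sum, ← sum_sub_distrib]
    have h1 : ∀ T ∈ SC m X, |(∑ p ∈ PQ m (X / ∏ q ∈ T, q), G T p) -
        X * (wt T * ((m.totient : ℝ)⁻¹ * F (∑ p ∈ T, gg p + gg (cl m a T))))| ≤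
        ε * X * wt T + (C1 + 1) := by
      intro T hT
      have hpos : (0 : ℝ) < ((∏ q ∈ T, q : ℕ) : ℝ) := by exact_mod_cast SC_pos hT
      set n : ℕ := X / ∏ q ∈ T, q with hn
      have hn1 : (n : ℝ) ≤ X * wt T := by
        rw [wt_eq, hn, mul_one_div]
        exact Nat.cast_div_le
      have hn2 : X * wt T ≤ n + 1 := by
        rw [wt_eq, mul_one_div, div_le_iff₀ hpos]
        have h2 : X < (n + 1) * ∏ q ∈ T, q := by
          rw [hn, mul_comm]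
          exact Nat.lt_mul_div_succ X (SC_pos hT)
        exact_mod_cast h2.le
      have hcT := SC_cop hT
      have h0 : ∑ p ∈ PQ m n, G T p = F (∑ p ∈ T, gg p + gg (cl m a T)) *
          xapl_th m (cl m a T) (n : ℝ) := inner_eq hm0 hm ha hcT F _ n
      set f : ℝ := F (∑ p ∈ T, gg p + gg (cl m a T)) with hf
      have hf1 : |f| ≤ 1 := hF _
      have h2 := hC1 (cl m a T) (cl_lt hm0 a T) (cl_cop hm0 ha hcT) n
      have h2' : |f * (xapl_th m (cl m a T) (n : ℝ) - (m.totient : ℝ)⁻¹ * n)| ≤ ε * n + C1 := by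
        rw [abs_mul]
        have := abs_nonneg (xapl_th m (cl m a T) (n : ℝ) - (m.totient : ℝ)⁻¹ * n)
        have := abs_nonneg f
        nlinarith
      have h3 : |(n : ℝ) * ((m.totient : ℝ)⁻¹ * f) - X * (wt T * ((m.totient : ℝ)⁻¹ * f))| ≤ 1 := by
        rw [← mul_assoc (X : ℝ), ← sub_mul, abs_mul]
        have h4 : |(n : ℝ) - X * wt T| ≤ 1 := by
          rw [abs_le]
          constructor <;> linarith
        have h5 : |(m.totient : ℝ)⁻¹ * f| ≤ 1 := by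
          rw [abs_mul, abs_of_pos hphi]
          have := abs_nonneg f
          nlinarith
        have h6 := abs_nonneg ((m.totient : ℝ)⁻¹ * f)
        have h7 := abs_nonneg ((n : ℝ) - X * wt T)
        nlinarith
      have h4 : ε * n ≤ ε * X * wt T := by
        rw [mul_assoc]
        exact mul_le_mul_of_nonneg_left hn1 hε.le
      rw [h0]
      calc |f * xapl_th m (cl m a T) (n : ℝ) - X * (wt T * ((m.totient : ℝ)⁻¹ * f))| =
          |f * (xapl_th m (cl m a T) (n : ℝ) - (m.totient : ℝ)⁻¹ * n) +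
            ((n : ℝ) * ((m.totient : ℝ)⁻¹ * f) - X * (wt T * ((m.totient : ℝ)⁻¹ * f)))| := by
            congr 1
            ring
        _ ≤ (ε * n + C1) + 1 := (abs_add_le _ _).trans (add_le_add h2' h3)
        _ ≤ _ := by linarith
    refine ((abs_sum_le_sum_abs _ _).trans (sum_le_sum h1)).trans ?_
    rw [sum_add_distrib, ← mul_sum, sum_const, nsmul_eq_mul]
    have h5 := mul_le_mul_of_nonneg_left (sum_wt_SC hm X) (by positivity : 0 ≤ ε * X)
    have h6 := mul_le_mul_of_nonneg_right (card_SC hm X) (by positivity : 0 ≤ C1 + 1)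
    linarith
  rw [e2] at e1
  rw [e1] at b1
  set A1 : ℝ := (∑ S ∈ SC m X, R S) * Real.log X
  set A2 : ℝ := ∑ T ∈ SC m X, ∑ p ∈ PQ m (X / ∏ q ∈ T, q), G T p
  set A3 : ℝ := ∑ T ∈ SC m X, ∑ p ∈ PQ m (X / ∏ q ∈ T, q) ∩ T, G T p
  set A4 : ℝ := X * ∑ T ∈ SC m X, wt T * ((m.totient : ℝ)⁻¹ * F (∑ p ∈ T, gg p + gg (cl m a T)))
  rw [abs_le] at b1 b2 b3 ⊢
  constructor <;> nlinarith [b1.1, b1.2, b2.1, b2.2, b3.1, b3.2]

/-! ### The class -/

lemma FV_cl (V : ℕ) (k d : ℤ) (hd : d = 0 ∨ d = 1 ∨ d = -1) (hp : Even (k + d)) :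
    |FV V (k + d) - 1 / 2 * sgz (2 * V) k| ≤ 1 / 2 * (sgz (2 * V - 1) k - sgz (2 * V) k) := by
  unfold Pool.Agent.N186.ND.FV
  rw [if_pos hp]
  unfold Pool.Agent.N186.ND.sgz
  rcases hd with rfl | rfl | rfl
  · rw [add_zero] at hp ⊢
    by_cases h : 2 * (V : ℤ) ≤ k
    · rw [if_pos h, if_pos h, if_pos (by omega)]; norm_num
    · rw [if_neg h, if_neg h]
      by_cases h' : 2 * (V : ℤ) - 1 ≤ k
      · rw [if_pos h']; norm_num
      · rw [if_neg h']; norm_num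
  · obtain ⟨l, hl⟩ := hp
    by_cases h : 2 * (V : ℤ) - 1 ≤ k
    · rw [if_pos (by omega), if_pos h]
      by_cases h' : 2 * (V : ℤ) ≤ k
      · rw [if_pos h']; norm_num
      · rw [if_neg h']; norm_num
    · rw [if_neg (by omega), if_neg h, if_neg (by omega)]; norm_num
  · obtain ⟨l, hl⟩ := hp
    by_cases h : 2 * (V : ℤ) ≤ k
    · rw [if_pos (by omega), if_pos h, if_pos (by omega)]; norm_num
    · rw [if_neg (by omega), if_neg h]
      by_cases h' : 2 * (V : ℤ) - 1 ≤ k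
      · rw [if_pos h']; norm_num
      · rw [if_neg h']; norm_num

/-- the parity of the class of the last prime -/
lemma cl_parity {m : ℕ} (hm0 : 0 < m) (hm : 56 ∣ m) {a : ℕ} (ha : Nat.Coprime a m)
    (ha4 : a % 4 = 1) {T : Finset ℕ} (hTp : ∀ p ∈ T, Pr p) (hT : Nat.Coprime (∏ p ∈ T, p) m) :
    Even (∑ p ∈ T, gg p + gg (cl m a T)) := by
  have h4 : (4 : ℕ) ∣ m := (by norm_num : (4 : ℕ) ∣ 56).trans hm
  have h2 : (2 : ℕ) ∣ m := (by norm_num : (2 : ℕ) ∣ 56).trans hm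
  have hc := cl_cop hm0 ha hT
  have hodd : cl m a T % 2 = 1 := by
    have h5 := Nat.Coprime.coprime_dvd_right h2 hc
    rcases Nat.mod_two_eq_zero_or_one (cl m a T) with h6 | h6
    · exfalso
      have h7 : 2 ∣ cl m a T := Nat.dvd_of_mod_eq_zero h6
      have := Nat.Coprime.eq_one_of_dvd h5.symm h7
      omega
    · exact h6
  have h5 : (cl m a T * ∏ q ∈ T, q) % m = a % m := (cl_iff hm0 a hT (cl m a T)).2 rfl
  have h6 : (cl m a T * ∏ q ∈ T, q) % 4 = 1 := by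
    have := congrArg (fun x => x % 4) h5
    simp only [Nat.mod_mod_of_dvd _ h4] at this
    omega
  rw [Int.even_add]
  rw [Nat.mul_mod] at h6
  rcases gg_parity _ hodd with ⟨h7, h8⟩ | ⟨h7, h8⟩ <;> rcases parity T hTp with ⟨h9, h10⟩ | ⟨h9, h10⟩ <;>
    rw [h7, h9] at h6 <;> first | (exfalso; omega) | tauto

lemma SM_eq {m a : ℕ} (h : Pool.Agent.N843.DM.Ma m a) (X : ℕ) :
    Pool.Agent.N843.DM.SM m a X = (SC m X).filter fun S => (∏ p ∈ S, p) % m = a % m := by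
  obtain ⟨hm0, hm, ha, ha4⟩ := h
  have h4 : (4 : ℕ) ∣ m := (by norm_num : (4 : ℕ) ∣ 56).trans hm
  ext S
  unfold Pool.Agent.N843.DM.SM Pool.Agent.N973.ND.SS
  rw [mem_filter, mem_filter, mem_filter, mem_powerset, mem_SC]
  unfold Pool.Agent.N973.ND.Cl
  constructor
  · rintro ⟨⟨_, ⟨h1, h2⟩, h3⟩, h5⟩
    refine ⟨⟨fun p hp => ⟨(h1 p hp).1, ?_⟩, h3⟩, h5⟩
    have h6 : Nat.Coprime (∏ p ∈ S, p) m := cop_congr h5 ha
    exact Nat.Coprime.coprime_dvd_left (dvd_prod_of_mem _ hp) h6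
  · rintro ⟨⟨h1, h2⟩, h3⟩
    refine ⟨⟨fun p hp => ?_, ⟨fun p hp => Pr_of hm (h1 p hp).1 (h1 p hp).2, ?_⟩, h2⟩, h3⟩
    · rw [mem_range]
      have : p ≤ ∏ p ∈ S, p := Nat.le_of_dvd (prod_pos fun q hq => (h1 q hq).1.pos)
        (dvd_prod_of_mem _ hp)
      omega
    · have := congrArg (fun x => x % 4) h3
      simp only [Nat.mod_mod_of_dvd _ h4] at this
      omega

/-- DM-KD: the distribution of `kd`. -/
theorem t_KD : Pool.Agent.N843.DM.M_KD := by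
  intro m a hma V ε hε
  have hSM := SM_eq hma
  obtain ⟨hm0, hm, ha, ha4⟩ := hma
  have h4 : (4 : ℕ) ∣ m := (by norm_num : (4 : ℕ) ∣ 56).trans hm
  obtain ⟨C, hC0, hC⟩ := to_log hm0 hm ha (ε / 4) (by positivity)
  obtain ⟨X1, hX1⟩ := LL_small hm0 hm (2 * V) (ε / 4) (by positivity)
  obtain ⟨X2, hX2⟩ := LL_small hm0 hm (2 * V - 1) (ε / 4) (by positivity)
  have hlog : Tendsto (fun X : ℕ => Real.log (X : ℝ)) atTop atTop :=
    Real.tendsto_log_atTop.comp tendsto_natCast_atTop_atTop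
  obtain ⟨X3, hX3⟩ := eventually_atTop.1 (hlog.eventually_ge_atTop (4 * C / ε + 1))
  refine ⟨max (max X1 X2) (max X3 1), fun X hX => ?_⟩
  have h1 := hX1 X (by omega)
  have h2 := hX2 X (by omega)
  have h3 := hX3 X (by omega)
  have hXpos : 1 ≤ X := by omega
  have hX0 : (0 : ℝ) < X := by exact_mod_cast hXpos
  have hl : 0 < Real.log X := by
    have : 0 ≤ 4 * C / ε := by positivity
    linarith
  have hphi : (0 : ℝ) < (m.totient : ℝ)⁻¹ := by
    have : 0 < m.totient := Nat.totient_pos.2 hm0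
    positivity
  have hphi1 : (m.totient : ℝ)⁻¹ ≤ 1 := by
    have : 1 ≤ m.totient := Nat.totient_pos.2 hm0
    apply inv_le_one_of_one_le₀
    exact_mod_cast this
  have ediff : (((Pool.Agent.N843.DM.SM m a X).filter fun S => 2 * (V : ℤ) ≤ kd S).card : ℝ) -
      (1 / 2) * ((Pool.Agent.N843.DM.SM m a X).card : ℝ) =
      ∑ S ∈ SC m X, if (∏ p ∈ S, p) % m = a % m then FV V (∑ p ∈ S, gg p) else 0 := by
    rw [hSM X, card_filter, card_eq_sum_ones]
    push_cast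
    rw [mul_sum, ← sum_sub_distrib, sum_filter]
    refine sum_congr rfl fun S hS => ?_
    by_cases h5 : (∏ p ∈ S, p) % m = a % m
    · rw [if_pos h5, if_pos h5]
      have hSp : ∀ p ∈ S, Pr p := fun p hp =>
        Pr_of hm ((mem_SC.1 hS).1 p hp).1 ((mem_SC.1 hS).1 p hp).2
      have h6 : Even (∑ p ∈ S, gg p) := by
        rcases parity S hSp with ⟨h7, _⟩ | ⟨_, h7⟩
        · exfalso
          have := congrArg (fun x => x % 4) h5
          simp only [Nat.mod_mod_of_dvd _ h4] at this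
          omega
        · exact h7
      unfold Pool.Agent.N186.ND.FV
      rw [if_pos h6, kd_eq]
      split_ifs <;> norm_num
    · rw [if_neg h5, if_neg h5]
  rw [ediff]
  have h5 := hC (FV V) (FV_le V) X hXpos
  set M : ℝ := ∑ S ∈ SC m X, if (∏ p ∈ S, p) % m = a % m then FV V (∑ p ∈ S, gg p) else 0 with hM
  -- the logarithmic sum
  have h6 : |∑ T ∈ SC m X, wt T * ((m.totient : ℝ)⁻¹ *
      FV V (∑ p ∈ T, gg p + gg (cl m a T)))| ≤ 3 / 8 * (ε * Real.log X) := by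
    have k1 : |∑ T ∈ SC m X, wt T * FV V (∑ p ∈ T, gg p + gg (cl m a T)) -
        1 / 2 * LL m (2 * V) X| ≤ 1 / 2 * (LL m (2 * V - 1) X - LL m (2 * V) X) := by
      rw [LL_eq, LL_eq, mul_sum, ← sum_sub_distrib, ← sum_sub_distrib, mul_sum]
      refine (abs_sum_le_sum_abs _ _).trans (sum_le_sum fun T hT => ?_)
      have hTp : ∀ p ∈ T, Pr p := fun p hp =>
        Pr_of hm ((mem_SC.1 hT).1 p hp).1 ((mem_SC.1 hT).1 p hp).2
      have k2 := FV_cl V (∑ p ∈ T, gg p) (gg (cl m a T)) (gg_cases _)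
        (cl_parity hm0 hm ha ha4 hTp (SC_cop hT))
      have k3 := wt_nonneg T
      have e : wt T * FV V (∑ p ∈ T, gg p + gg (cl m a T)) -
          1 / 2 * (wt T * sgz (2 * V) (∑ p ∈ T, gg p)) =
          wt T * (FV V (∑ p ∈ T, gg p + gg (cl m a T)) - 1 / 2 * sgz (2 * V) (∑ p ∈ T, gg p)) := by
        ring
      rw [e, abs_mul, abs_of_nonneg k3]
      calc _ ≤ wt T * (1 / 2 * (sgz (2 * V - 1) (∑ p ∈ T, gg p) - sgz (2 * V) (∑ p ∈ T, gg p))) :=
            mul_le_mul_of_nonneg_left k2 k3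
        _ = _ := by ring
    have e : ∑ T ∈ SC m X, wt T * ((m.totient : ℝ)⁻¹ *
        FV V (∑ p ∈ T, gg p + gg (cl m a T))) = (m.totient : ℝ)⁻¹ *
        ∑ T ∈ SC m X, wt T * FV V (∑ p ∈ T, gg p + gg (cl m a T)) := by
      rw [mul_sum]
      refine sum_congr rfl fun T _ => by ring
    rw [e, abs_mul, abs_of_pos hphi]
    set W : ℝ := ∑ T ∈ SC m X, wt T * FV V (∑ p ∈ T, gg p + gg (cl m a T))
    have k4 : |W| ≤ 3 / 8 * (ε * Real.log X) := by
      rw [abs_le] at k1 h1 h2 ⊢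
      constructor <;> linarith [k1.1, k1.2, h1.1, h1.2, h2.1, h2.2]
    have := abs_nonneg W
    nlinarith
  have h7 : C ≤ ε / 4 * Real.log X := by
    have h6 : 4 * C / ε ≤ Real.log X := by linarith
    rw [div_le_iff₀ hε] at h6
    linarith
  have h8 : |M * Real.log X| ≤ (ε * X) * Real.log X := by
    set W : ℝ := ∑ T ∈ SC m X, wt T * ((m.totient : ℝ)⁻¹ *
      FV V (∑ p ∈ T, gg p + gg (cl m a T)))
    have t1 := abs_add_le (M * Real.log X - X * W) (X * W)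
    rw [sub_add_cancel] at t1
    have t2 : |(X : ℝ) * W| ≤ X * (3 / 8 * (ε * Real.log X)) := by
      rw [abs_mul, abs_of_pos hX0]
      exact mul_le_mul_of_nonneg_left h6 hX0.le
    have h7' : C * X ≤ (ε / 4 * Real.log X) * X := mul_le_mul_of_nonneg_right h7 hX0.le
    have h8' : 0 ≤ ε * X * Real.log X := by positivity
    nlinarith
  rw [abs_mul, abs_of_pos hl] at h8
  exact le_of_mul_le_mul_right h8 hl

end Pool.Agent.N186.DM
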