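import Pool.Agent.N843.DM.Stm

/-!
# Project DM: the class has positive density
-/

set_option autoImplicit false

open scoped Classical

open Finset Filter Topology

namespace Pool.Agent.N186.DM

open Pool.Agent.N973.ND (Pr)

/-- the multiples of `n ^ 2` in the class -/
lemma card_mult {m a : ℕ} (hm0 : 0 < m) (ha : Nat.Coprime a m) (X n : ℕ) (hn : 0 < n) :
    ((((Icc 1 X).filter fun D => D % m = a % m).filter fun D => n ^ 2 ∣ D).card : ℝ) ≤
      (X : ℝ) / m * ((n : ℝ) ^ 2)⁻¹ + 1 := by
  have hn2 : 0 < n ^ 2 := by positivity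
  by_cases hc : Nat.Coprime n m
  · have h1 : (((Icc 1 X).filter fun D => D % m = a % m).filter fun D => n ^ 2 ∣ D).card ≤
        (range (X / n ^ 2 / m + 1)).card := by
      refine card_le_card_of_injOn (fun D => D / n ^ 2 / m) ?_ ?_
      · intro D hD
        rw [mem_coe, mem_filter, mem_filter, mem_Icc] at hD
        show D / n ^ 2 / m ∈ ((range (X / n ^ 2 / m + 1) : Finset ℕ) : Set ℕ)
        rw [mem_coe, mem_range, Nat.lt_succ_iff]
        exact Nat.div_le_div_right (Nat.div_le_div_right hD.1.1.2)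
      · intro D hD E hE hDE
        rw [mem_coe, mem_filter, mem_filter, mem_Icc] at hD hE
        obtain ⟨k, rfl⟩ := hD.2
        obtain ⟨l, rfl⟩ := hE.2
        simp only [Nat.mul_div_cancel_left _ hn2] at hDE
        have h2 : n ^ 2 * k ≡ n ^ 2 * l [MOD m] := hD.1.2.trans hE.1.2.symm
        have h3 : k ≡ l [MOD m] := Nat.ModEq.cancel_left_of_coprime
          ((Nat.Coprime.pow_left 2 hc).symm) h2
        have h4 : k = l := by
          have e1 := Nat.div_add_mod k m
          have e2 := Nat.div_add_mod l m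
          have h5 : k % m = l % m := h3
          rw [← e1, ← e2, hDE, h5]
        rw [h4]
    rw [card_range] at h1
    have h2 : ((X / n ^ 2 / m + 1 : ℕ) : ℝ) ≤ (X : ℝ) / m * ((n : ℝ) ^ 2)⁻¹ + 1 := by
      rw [Nat.div_div_eq_div_mul]
      push_cast
      have h3 : ((X / (n ^ 2 * m) : ℕ) : ℝ) ≤ (X : ℝ) / ((n ^ 2 * m : ℕ) : ℝ) := Nat.cast_div_le
      have hn0 : (0 : ℝ) < n := by exact_mod_cast hn
      have hm1 : (0 : ℝ) < m := by exact_mod_cast hm0
      have e : (X : ℝ) / ((n ^ 2 * m : ℕ) : ℝ) = (X : ℝ) / m * ((n : ℝ) ^ 2)⁻¹ := by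
        push_cast
        field_simp
      rw [e] at h3
      linarith
    calc _ ≤ ((X / n ^ 2 / m + 1 : ℕ) : ℝ) := by exact_mod_cast h1
      _ ≤ _ := h2
  · have h1 : (((Icc 1 X).filter fun D => D % m = a % m).filter fun D => n ^ 2 ∣ D) = ∅ := by
      rw [filter_eq_empty_iff]
      intro D hD h2
      rw [mem_filter] at hD
      apply hc
      have h3 : Nat.gcd D m = Nat.gcd a m := Nat.ModEq.gcd_eq hD.2
      have h4 : Nat.Coprime D m := by
        rw [Nat.coprime_iff_gcd_eq_one] at ha ⊢
        rw [h3, ha]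
      exact Nat.Coprime.coprime_dvd_left ((Dvd.intro_left (n ^ 1) (by ring)).trans h2) h4
    rw [h1, card_empty, Nat.cast_zero]
    positivity

/-- DM-LOW: the class has positive density. -/
theorem t_LOW : Pool.Agent.N843.DM.M_LOW := by
  intro m a hma
  obtain ⟨hm0, hm, ha, ha4⟩ := hma
  have hm56 : 56 ≤ m := Nat.le_of_dvd hm0 hm
  have hm1 : (0 : ℝ) < m := by exact_mod_cast hm0
  refine ⟨1 / (4 * m), (8 * m) ^ 2, by positivity, fun X hX => ?_⟩
  have hX64 : ((8 * m : ℕ) : ℝ) ^ 2 ≤ X := by exact_mod_cast hX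
  push_cast at hX64
  have hX0 : (0 : ℝ) < X := lt_of_lt_of_le (by positivity) hX64
  set A : Finset ℕ := (Icc 1 X).filter fun D => D % m = a % m with hA
  have hcop : ∀ D ∈ A, Nat.Coprime D m := by
    intro D hD
    rw [hA, mem_filter] at hD
    have h3 : Nat.gcd D m = Nat.gcd a m := Nat.ModEq.gcd_eq hD.2
    rw [Nat.coprime_iff_gcd_eq_one] at ha ⊢
    rw [h3, ha]
  -- lower bound for `A`
  have hA1 : (X : ℝ) / m - 1 ≤ A.card := by
    have h1 : (range (X / m)).card ≤ A.card := by
      refine card_le_card_of_injOn (fun j => m * j + a % m) ?_ ?_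
      · intro j hj
        rw [mem_coe, mem_range] at hj
        show m * j + a % m ∈ (A : Set ℕ)
        rw [mem_coe, hA, mem_filter, mem_Icc]
        have h2 : a % m < m := Nat.mod_lt _ hm0
        have h3 : 0 < a % m := by
          rcases Nat.eq_zero_or_pos (a % m) with h | h
          · exfalso
            have h4 : m ∣ a := Nat.dvd_of_mod_eq_zero h
            have := Nat.Coprime.eq_one_of_dvd ha.symm h4
            omega
          · exact h
        have h5 : m * (j + 1) ≤ X := by
          calc m * (j + 1) ≤ m * (X / m) := Nat.mul_le_mul_left _ hj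
            _ ≤ X := Nat.mul_div_le X m
        refine ⟨⟨by omega, ?_⟩, ?_⟩
        · have : m * (j + 1) = m * j + m := by ring
          omega
        · rw [Nat.mul_add_mod, Nat.mod_mod]
      · intro i _ j _ hij
        have h2 : m * i = m * j := by
          simp only at hij
          omega
        exact Nat.eq_of_mul_eq_mul_left hm0 h2
    rw [card_range] at h1
    have h2 : (X : ℝ) / m < ((X / m : ℕ) : ℝ) + 1 := by
      rw [div_lt_iff₀ hm1]
      have h3 : X < (X / m + 1) * m := by
        rw [mul_comm]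
        exact Nat.lt_mul_div_succ X hm0
      exact_mod_cast h3
    have h3 : ((X / m : ℕ) : ℝ) ≤ A.card := by exact_mod_cast h1
    linarith
  -- the decomposition
  have hsub : A ⊆ A.filter Squarefree ∪ (Ioc 2 (Nat.sqrt X)).biUnion
      fun n => A.filter fun D => n ^ 2 ∣ D := by
    intro D hD
    rw [mem_union, mem_filter, mem_biUnion]
    by_cases hs : Squarefree D
    · exact Or.inl ⟨hD, hs⟩
    · right
      rw [Nat.squarefree_iff_prime_squarefree] at hs
      push Not at hs
      obtain ⟨p, hp, hpD⟩ := hs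
      have hD1 := hD
      rw [hA, mem_filter, mem_Icc] at hD1
      refine ⟨p, ?_, ?_⟩
      · rw [mem_Ioc]
        constructor
        · have h2 := hp.two_le
          have h3 : p ≠ 2 := by
            rintro rfl
            have h4 : 2 ∣ m := (by norm_num : (2 : ℕ) ∣ 56).trans hm
            have h5 : 2 ∣ D := (Dvd.intro_left 2 rfl).trans hpD
            have := Nat.Coprime.eq_one_of_dvd
              (Nat.Coprime.coprime_dvd_right h4 (hcop D hD)).symm h5
            omega
          omega
        · rw [Nat.le_sqrt]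
          exact (Nat.le_of_dvd (by omega) hpD).trans hD1.1.2
      · rw [mem_filter, pow_two]
        exact ⟨hD, hpD⟩
  have hcard : (A.card : ℝ) ≤ (A.filter Squarefree).card +
      ∑ n ∈ Ioc 2 (Nat.sqrt X), ((A.filter fun D => n ^ 2 ∣ D).card : ℝ) := by
    have h1 := (card_le_card hsub).trans (card_union_le _ _)
    have h2 : ((Ioc 2 (Nat.sqrt X)).biUnion fun n => A.filter fun D => n ^ 2 ∣ D).card ≤
        ∑ n ∈ Ioc 2 (Nat.sqrt X), (A.filter fun D => n ^ 2 ∣ D).card := card_biUnion_le
    have h3 : A.card ≤ (A.filter Squarefree).card +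
        ∑ n ∈ Ioc 2 (Nat.sqrt X), (A.filter fun D => n ^ 2 ∣ D).card := by omega
    exact_mod_cast h3
  have hsum : ∑ n ∈ Ioc 2 (Nat.sqrt X), ((A.filter fun D => n ^ 2 ∣ D).card : ℝ) ≤
      (X : ℝ) / m * (1 / 2) + Nat.sqrt X := by
    calc _ ≤ ∑ n ∈ Ioc 2 (Nat.sqrt X), ((X : ℝ) / m * ((n : ℝ) ^ 2)⁻¹ + 1) := by
          refine sum_le_sum fun n hn => ?_
          rw [mem_Ioc] at hn
          exact card_mult hm0 ha X n (by omega)
      _ = (X : ℝ) / m * (∑ n ∈ Ioc 2 (Nat.sqrt X), ((n : ℝ) ^ 2)⁻¹) +
          ((Ioc 2 (Nat.sqrt X)).card : ℝ) := by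
          rw [sum_add_distrib, mul_sum, sum_const, nsmul_eq_mul, mul_one]
      _ ≤ _ := by
          have h1 : ∑ n ∈ Ioc 2 (Nat.sqrt X), ((n : ℝ) ^ 2)⁻¹ ≤ 1 / 2 := by
            rcases le_or_gt 2 (Nat.sqrt X) with h | h
            · have h2 := sum_Ioc_inv_sq_le_sub (α := ℝ) (k := 2) (n := Nat.sqrt X) two_ne_zero h
              have h3 : (0 : ℝ) ≤ ((Nat.sqrt X : ℕ) : ℝ)⁻¹ := by positivity
              norm_num at h2
              linarith
            · rw [Ioc_eq_empty_of_le h.le, sum_empty]
              norm_num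
          have h2 : ((Ioc 2 (Nat.sqrt X)).card : ℝ) ≤ Nat.sqrt X := by
            rw [Nat.card_Ioc]
            exact_mod_cast Nat.sub_le _ _
          have h3 := mul_le_mul_of_nonneg_left h1 (by positivity : 0 ≤ (X : ℝ) / m)
          linarith
  -- the squarefree numbers
  have hinj : ((A.filter Squarefree).card : ℝ) ≤ (Pool.Agent.N843.DM.SM m a X).card := by
    have h1 : (A.filter Squarefree).card ≤ (Pool.Agent.N843.DM.SM m a X).card := by
      refine card_le_card_of_injOn (fun D => D.primeFactors) ?_ ?_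
      · intro D hD
        rw [mem_coe, mem_filter] at hD
        have hD2 := hcop D hD.1
        have hD1 := hD.1
        rw [hA, mem_filter, mem_Icc] at hD1
        have hprod : ∏ p ∈ D.primeFactors, p = D := Nat.prod_primeFactors_of_squarefree hD.2
        have h4 : (4 : ℕ) ∣ m := (by norm_num : (4 : ℕ) ∣ 56).trans hm
        show D.primeFactors ∈ (Pool.Agent.N843.DM.SM m a X : Set (Finset ℕ))
        rw [mem_coe]
        unfold Pool.Agent.N843.DM.SM Pool.Agent.N973.ND.SS
        rw [mem_filter, mem_filter, mem_powerset]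
        unfold Pool.Agent.N973.ND.Cl
        rw [hprod]
        refine ⟨⟨fun p hp => ?_, ⟨fun p hp => ?_, ?_⟩, hD1.1.2⟩, hD1.2⟩
        · rw [mem_range]
          have := Nat.le_of_mem_primeFactors hp
          omega
        · have hpp := Nat.prime_of_mem_primeFactors hp
          have hpD := Nat.dvd_of_mem_primeFactors hp
          have hpm : Nat.Coprime p m := Nat.Coprime.coprime_dvd_left hpD hD2
          refine ⟨hpp, ?_, ?_⟩
          · rintro rfl
            have h5 : 2 ∣ m := (by norm_num : (2 : ℕ) ∣ 56).trans hm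
            have := Nat.Coprime.eq_one_of_dvd hpm h5
            omega
          · rintro rfl
            have h5 : 7 ∣ m := (by norm_num : (7 : ℕ) ∣ 56).trans hm
            have := Nat.Coprime.eq_one_of_dvd hpm h5
            omega
        · have := congrArg (fun x => x % 4) hD1.2
          simp only [Nat.mod_mod_of_dvd _ h4] at this
          omega
      · intro D hD E hE hDE
        rw [mem_coe, mem_filter] at hD hE
        have e1 : ∏ p ∈ D.primeFactors, p = D := Nat.prod_primeFactors_of_squarefree hD.2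
        have e2 : ∏ p ∈ E.primeFactors, p = E := Nat.prod_primeFactors_of_squarefree hE.2
        have e3 : D.primeFactors = E.primeFactors := hDE
        rw [← e1, ← e2, e3]
    exact_mod_cast h1
  -- the end
  have hsq : (Nat.sqrt X : ℝ) ^ 2 ≤ X := by
    have := Nat.sqrt_le' X
    exact_mod_cast this
  have hsq2 : (8 * m : ℝ) ≤ Nat.sqrt X := by
    have h1 : 8 * m ≤ Nat.sqrt X := by
      rw [Nat.le_sqrt']
      exact hX
    exact_mod_cast h1
  set s : ℝ := (Nat.sqrt X : ℝ) with hs
  have hs1 : 1 ≤ s := by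
    have : (56 : ℝ) ≤ m := by exact_mod_cast hm56
    linarith
  have hfin : s + 1 ≤ (X : ℝ) / m * (1 / 4) := by
    have h1 : 8 * m * s ≤ X := by nlinarith
    rw [div_mul_eq_mul_div, le_div_iff₀ hm1]
    nlinarith
  have e : 1 / (4 * (m : ℝ)) * X = (X : ℝ) / m * (1 / 4) := by
    field_simp
  rw [e]
  linarith

end Pool.Agent.N186.DM
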